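import Mathlib
import Pool.Agent.H59.L.S8.Y506.FF.Stm

/-!
# Change of variables for the thickening map
-/

set_option autoImplicit false

namespace Pool.Agent.Y809.FF

open MeasureTheory Set Filter Topology
open scoped ENNReal InnerProductSpace
open Pool.Agent.W695.KH (Eu)
open Pool.Agent.Y506.FF

section

variable {ι : Type} [Fintype ι] {d : ℕ}

/-- the projection as a continuous linear map -/
noncomputable def Pc (M : Eu (Fin d) →ₗᵢ[ℝ] Eu ι) : Eu ι →L[ℝ] Eu ι :=
  ∑ j, (innerSL ℝ (M (EuclideanSpace.single j 1))).smulRight (M (EuclideanSpace.single j 1))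

theorem Pc_apply (M : Eu (Fin d) →ₗᵢ[ℝ] Eu ι) (w : Eu ι) : Pc M w = prj M w := by
  unfold Pc prj
  rw [_root_.sum_apply]
  refine Finset.sum_congr rfl fun j _ => ?_
  rw [ContinuousLinearMap.smulRight_apply, innerSL_apply_apply]

theorem prj_sub (M : Eu (Fin d) →ₗᵢ[ℝ] Eu ι) (w w' : Eu ι) :
    prj M (w - w') = prj M w - prj M w' := by
  rw [← Pc_apply, ← Pc_apply, ← Pc_apply, map_sub]

theorem inner_M (M : Eu (Fin d) →ₗᵢ[ℝ] Eu ι) (j k : Fin d) :
    ⟪M (EuclideanSpace.single j 1), M (EuclideanSpace.single k 1)⟫_ℝ = if j = k then 1 else 0 := by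
  rw [LinearIsometry.inner_map_map]
  have h := (EuclideanSpace.basisFun (Fin d) ℝ).orthonormal
  rw [orthonormal_iff_ite] at h
  have h1 := h j k
  rw [EuclideanSpace.basisFun_apply, EuclideanSpace.basisFun_apply] at h1
  exact h1

theorem inner_prj (M : Eu (Fin d) →ₗᵢ[ℝ] Eu ι) (w : Eu ι) (k : Fin d) :
    ⟪M (EuclideanSpace.single k 1), prj M w⟫_ℝ = ⟪M (EuclideanSpace.single k 1), w⟫_ℝ := by
  unfold prj
  rw [inner_sum]
  simp only [inner_smul_right, inner_M, mul_ite, mul_one, mul_zero]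
  simp

theorem inner_sub_prj (M : Eu (Fin d) →ₗᵢ[ℝ] Eu ι) (w w' : Eu ι) :
    ⟪w - prj M w, prj M w'⟫_ℝ = 0 := by
  have h1 : ∀ k : Fin d, ⟪w - prj M w, M (EuclideanSpace.single k 1)⟫_ℝ = 0 := by
    intro k
    rw [real_inner_comm, inner_sub_right, inner_prj, sub_self]
  conv_lhs => rw [prj.eq_def M w']
  rw [inner_sum]
  refine Finset.sum_eq_zero fun k _ => ?_
  rw [inner_smul_right, h1 k, mul_zero]

theorem inner_eq_sum (x y : Eu ι) : ⟪x, y⟫_ℝ = ∑ i, x i * y i := by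
  rw [PiLp.inner_apply]
  refine Finset.sum_congr rfl fun i _ => ?_
  simp [mul_comm]

theorem prj_coord (M : Eu (Fin d) →ₗᵢ[ℝ] Eu ι) (w : Eu ι) (i : ι) :
    prj M w i = ((mat M * (mat M).transpose).mulVec w.ofLp) i := by
  rw [← Matrix.mulVec_mulVec]
  unfold prj
  rw [WithLp.ofLp_sum, Finset.sum_apply]
  simp only [Matrix.mulVec, dotProduct, Matrix.transpose_apply]
  refine Finset.sum_congr rfl fun j _ => ?_
  rw [inner_eq_sum]
  simp only [mat, WithLp.ofLp_smul, Pi.smul_apply, smul_eq_mul]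
  ring

theorem ATA (M : Eu (Fin d) →ₗᵢ[ℝ] Eu ι) : (mat M).transpose * mat M = 1 := by
  ext j k
  rw [Matrix.mul_apply, Matrix.one_apply, ← inner_M M j k, inner_eq_sum]
  rfl

theorem coord_lt (M : Eu (Fin d) →ₗᵢ[ℝ] Eu ι) {w : Eu ι} (hw : w ∈ Wd M) (i : ι) :
    0 < 1 - prj M w i := by
  have h1 : ‖prj M w i‖ ≤ ‖prj M w‖ := PiLp.norm_apply_le _ i
  have h2 := hw.2
  have h3 := le_abs_self (prj M w i)
  rw [Real.norm_eq_abs] at h1
  linarith

theorem Phi_apply (M : Eu (Fin d) →ₗᵢ[ℝ] Eu ι) (w : Eu ι) (i : ι) :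
    Phi M w i = (1 + (w - prj M w) i) / (1 - prj M w i) := rfl

theorem inj (M : Eu (Fin d) →ₗᵢ[ℝ] Eu ι) : InjOn (Phi M) (Wd M) := by
  intro w hw w' hw' heq
  have hi : ∀ i, (w - prj M w) i - (w' - prj M w') i =
      -(Phi M w i * (prj M w i - prj M w' i)) := by
    intro i
    have h1 := coord_lt M hw i
    have h2 := coord_lt M hw' i
    have e1 : Phi M w i * (1 - prj M w i) = 1 + (w - prj M w) i := by
      rw [Phi_apply, div_mul_cancel₀ _ h1.ne']
    have e2 : Phi M w' i * (1 - prj M w' i) = 1 + (w' - prj M w') i := by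
      rw [Phi_apply, div_mul_cancel₀ _ h2.ne']
    rw [← heq] at e2
    linarith
  have hpos : ∀ i, 0 < Phi M w i := by
    intro i
    rw [Phi_apply]
    exact div_pos (hw.1 i) (coord_lt M hw i)
  have h0 : ⟪(w - prj M w) - (w' - prj M w'), prj M w - prj M w'⟫_ℝ = 0 := by
    have e : (w - prj M w) - (w' - prj M w') = (w - w') - prj M (w - w') := by
      rw [prj_sub]; abel
    rw [e, ← prj_sub]
    exact inner_sub_prj M _ _
  rw [inner_eq_sum] at h0
  have h1 : ∑ i, Phi M w i * (prj M w i - prj M w' i) ^ 2 = 0 := by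
    have e : ∀ i, ((w - prj M w) - (w' - prj M w')) i * (prj M w - prj M w') i =
        -(Phi M w i * (prj M w i - prj M w' i) ^ 2) := by
      intro i
      have e1 : ((w - prj M w) - (w' - prj M w')) i = (w - prj M w) i - (w' - prj M w') i := rfl
      have e2 : (prj M w - prj M w') i = prj M w i - prj M w' i := rfl
      rw [e1, e2, hi i]
      ring
    rw [Finset.sum_congr rfl fun i _ => e i, Finset.sum_neg_distrib] at h0
    linarith
  have h2 := (Finset.sum_eq_zero_iff_of_nonneg fun i _ =>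
    mul_nonneg (hpos i).le (sq_nonneg _)).1 h1
  have h3 : ∀ i, prj M w i = prj M w' i := by
    intro i
    have h4 := h2 i (Finset.mem_univ i)
    rcases mul_eq_zero.1 h4 with h5 | h5
    · exact absurd h5 (hpos i).ne'
    · have := pow_eq_zero_iff (two_ne_zero) |>.1 h5
      linarith
  ext i
  have h4 := hi i
  rw [h3 i, sub_self, mul_zero, neg_zero] at h4
  have e1 : (w - prj M w) i = w i - prj M w i := rfl
  have e2 : (w' - prj M w') i = w' i - prj M w' i := rfl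
  rw [e1, e2, h3 i] at h4
  linarith

variable [DecidableEq ι]

/-- the matrix of the derivative -/
noncomputable def Jm (M : Eu (Fin d) →ₗᵢ[ℝ] Eu ι) (w : Eu ι) : Matrix ι ι ℝ :=
  Matrix.diagonal (fun i => (1 - prj M w i)⁻¹) *
    (1 + Matrix.diagonal (fun i => Phi M w i - 1) * mat M * (mat M).transpose)

/-- the derivative -/
noncomputable def Dm (M : Eu (Fin d) →ₗᵢ[ℝ] Eu ι) (w : Eu ι) : Eu ι →L[ℝ] Eu ι :=
  LinearMap.toContinuousLinearMap (Matrix.toLpLin 2 2 (Jm M w))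

theorem Dm_apply (M : Eu (Fin d) →ₗᵢ[ℝ] Eu ι) (w v : Eu ι) (i : ι) :
    Dm M w v i = (1 - prj M w i)⁻¹ * ((v i - prj M v i) + Phi M w i * prj M v i) := by
  have h1 : Dm M w v i = ((Jm M w).mulVec v.ofLp) i := rfl
  rw [h1, Jm, ← Matrix.mulVec_mulVec, Matrix.mulVec_diagonal, Matrix.add_mulVec,
    Matrix.one_mulVec, Matrix.mul_assoc, ← Matrix.mulVec_mulVec, Pi.add_apply,
    Matrix.mulVec_diagonal, ← prj_coord]
  ring

theorem det_Jm (M : Eu (Fin d) →ₗᵢ[ℝ] Eu ι) (w : Eu ι) :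
    (Jm M w).det = (∏ i, (1 - prj M w i)⁻¹) *
      ((mat M).transpose * Matrix.diagonal (Phi M w).ofLp * mat M).det := by
  rw [Jm, Matrix.det_mul, Matrix.det_diagonal, Matrix.det_one_add_mul_comm]
  congr 2
  have h1 : Matrix.diagonal (fun i => Phi M w i - 1) = Matrix.diagonal (Phi M w).ofLp - 1 := by
    rw [← Matrix.diagonal_one, Matrix.diagonal_sub]
  rw [h1, Matrix.sub_mul, Matrix.one_mul, Matrix.mul_sub, ATA, Matrix.mul_assoc]
  abel

theorem det_Dm (M : Eu (Fin d) →ₗᵢ[ℝ] Eu ι) (w : Eu ι) : (Dm M w).det = (Jm M w).det := by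
  unfold Dm
  rw [LinearMap.det_toContinuousLinearMap, Matrix.toLpLin_eq_toLin, LinearMap.det_toLin]

theorem hder (M : Eu (Fin d) →ₗᵢ[ℝ] Eu ι) {w : Eu ι} (hw : w ∈ Wd M) :
    HasFDerivAt (Phi M) (Dm M w) w := by
  rw [← hasFDerivWithinAt_univ, hasFDerivWithinAt_euclidean]
  intro i
  rw [hasFDerivWithinAt_univ]
  have hb := coord_lt M hw i
  have hP : HasFDerivAt (fun w : Eu ι => prj M w i)
      ((PiLp.proj 2 (fun _ : ι => ℝ) i : Eu ι →L[ℝ] ℝ) ∘L Pc M) w := by
    have h := ((PiLp.proj 2 (fun _ : ι => ℝ) i : Eu ι →L[ℝ] ℝ) ∘L Pc M).hasFDerivAt (x := w)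
    refine h.congr_of_eventuallyEq (Filter.Eventually.of_forall fun x => ?_)
    change prj M x i = Pc M x i
    rw [Pc_apply]
  have hI : HasFDerivAt (fun w : Eu ι => w i)
      ((PiLp.proj 2 (fun _ : ι => ℝ) i : Eu ι →L[ℝ] ℝ)) w :=
    ((PiLp.proj 2 (fun _ : ι => ℝ) i : Eu ι →L[ℝ] ℝ)).hasFDerivAt
  have ha : HasFDerivAt (fun w : Eu ι => 1 + (w i - prj M w i)) _ w := (hI.sub hP).const_add 1
  have hb' : HasFDerivAt (fun w : Eu ι => 1 - prj M w i) _ w := hP.const_sub 1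
  have hc := (hasDerivAt_inv hb.ne').comp_hasFDerivAt w hb'
  have hd := ha.mul hc
  have he : HasFDerivAt (fun w : Eu ι => Phi M w i) _ w := hd
  refine he.congr_fderiv ?_
  ext v
  have h1 : (PiLp.proj 2 (fun _ : ι => ℝ) i ∘L Dm M w) v = Dm M w v i := rfl
  rw [h1, Dm_apply, Phi_apply]
  have h2 : (w - prj M w) i = w i - prj M w i := rfl
  rw [h2]
  have h3 : Pc M v i = prj M v i := by rw [Pc_apply]
  simp only [_root_.add_apply, _root_.smul_apply,
    _root_.neg_apply, _root_.sub_apply, ContinuousLinearMap.comp_apply,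
    PiLp.proj_apply, h3, smul_eq_mul, Function.comp_apply]
  field_simp
  ring

end

theorem jac : S_JAC := by
  intro ι _ _ d M W hW hWd F
  rw [lintegral_image_eq_lintegral_abs_det_fderiv_mul volume hW
    (fun w hw => (hder M (hWd hw)).hasFDerivWithinAt) ((inj M).mono hWd) F]
  refine lintegral_congr fun w => ?_
  rw [det_Dm, det_Jm]

end Pool.Agent.Y809.FF
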